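import Pool.Agent.Helper52.PG.Goals

/-!
Packet PH-REVPAIR: algebra of good pairs.
-/

set_option autoImplicit false

namespace Pool.Agent.Helper86.PG

open Pool.Agent.Helper52.C2 Pool.Agent.Helper52.PG LaurentPolynomial

theorem tg_congr {S S' : Tg} (h : S = S') (hS : S.HH1) : S'.HH1 := h ▸ hS

theorem T_one_mul_neg (f : ℝ[T;T⁻¹]) : T 1 * (T (-1) * f) = f := by
  rw [← mul_assoc, ← T_add]
  norm_num

/-- Packet REVPAIR. -/
theorem revPair : GoalRevPair := by
  intro hShift hrev h3
  have hsh : ∀ (A B : ℝ[T;T⁻¹]) (k : ℤ), GoodPair A B → GoodPair (T k * A) (T k * B) := by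
    intro A B k h S hS
    have h1 := hShift (bes A B S) k (h S hS)
    refine tg_congr ?_ h1
    apply Tg.ext
    · show T k * (B * S.L + A * S.F) = T k * B * S.L + T k * A * S.F
      ring
    · show T k * (B * S.R + A * S.F) = T k * B * S.R + T k * A * S.F
      ring
    · show T k * (B * S.F) = T k * B * S.F
      ring
  refine ⟨hsh, ?_⟩
  rintro A B ⟨S, S', hS, hS', rfl, rfl⟩
  have h4 := hsh _ _ 1 (h3 (rev S) (rev S') (hrev S hS) (hrev S' hS'))
  have hT : (T 1 : ℝ[T;T⁻¹]) * T (-1) = 1 := by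
    rw [← T_add]
    norm_num
  have e1 : T 1 * (T 1 * ((rev S).F * (rev S').F)) = invert (S.F * S'.F) := by
    show T 1 * (T 1 * (T (-1) * invert S.F * (T (-1) * invert S'.F))) = invert (S.F * S'.F)
    rw [map_mul]
    linear_combination (T 1 * T (-1) + 1) * invert S.F * invert S'.F * hT
  have e2 : (S.mul S').F = S.L * S'.F + S.F * S'.R := by
    show S.R * S'.F + S.F * S'.L = S.L * S'.F + S.F * S'.R
    linear_combination S'.F * S.rel - S.F * S'.rel
  have e3 : T 1 * ((rev S).mul (rev S')).F = invert ((S.mul S').F) := by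
    rw [e2]
    show T 1 * (invert S.L * (T (-1) * invert S'.F) + T (-1) * invert S.F * invert S'.R) =
      invert (S.L * S'.F + S.F * S'.R)
    rw [map_add, map_mul, map_mul]
    linear_combination (invert S.L * invert S'.F + invert S.F * invert S'.R) * hT
  rw [e1, e3] at h4
  exact h4

/-- Packet DEC. -/
theorem dec : GoalDec := by
  intro h2
  refine ⟨?_, ?_, ?_, ?_⟩
  · rintro A B ⟨S, S', hS, hS', rfl, rfl⟩
    exact h2 S S' hS hS'
  · intro A B A' B' h h' S hS
    refine tg_congr ?_ (h _ (h' S hS))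
    apply Tg.ext
    · show B * (B' * S.L + A' * S.F) + A * (B' * S.F) =
        B * B' * S.L + (A * B' + B * A') * S.F
      ring
    · show B * (B' * S.R + A' * S.F) + A * (B' * S.F) =
        B * B' * S.R + (A * B' + B * A') * S.F
      ring
    · show B * (B' * S.F) = B * B' * S.F
      ring
  · rintro A B A' B' ⟨S, S', hS, hS', rfl, rfl⟩ h'
    refine ⟨bes A' B' S, S', h' S hS, hS', ?_, ?_⟩
    · show (S.R * S'.F + S.F * S'.L) * B' + S.F * S'.F * A' =
        (B' * S.R + A' * S.F) * S'.F + B' * S.F * S'.L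
      ring
    · show S.F * S'.F * B' = B' * S.F * S'.F
      ring
  · rintro A B A' B' h ⟨S, S', hS, hS', rfl, rfl⟩
    refine ⟨bes A B S, S', h S hS, hS', ?_, ?_⟩
    · show A * (S.F * S'.F) + B * (S.R * S'.F + S.F * S'.L) =
        (B * S.R + A * S.F) * S'.F + B * S.F * S'.L
      ring
    · show B * (S.F * S'.F) = B * S.F * S'.F
      ring

end Pool.Agent.Helper86.PG
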