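import Pool.Agent.Helper99.PG.Goals1

/-!
Project C2, packet PG-PA: the kernel is affine in every channel.
-/

set_option autoImplicit false

namespace Pool.Agent.Helper86.PG

open Pool.Agent.Helper52.C2 Pool.Agent.Helper99.PG LaurentPolynomial

theorem prod_upd {E : Type} [DecidableEq E] (s : Finset E) (f : Tg → ℝ[T;T⁻¹]) (a : E → Tg)
    (k : E) (S : Tg) : ∏ v ∈ s, f (Function.update a k S v) =
      (if k ∈ s then f S else 1) * ∏ v ∈ s.erase k, f (a v) := by
  by_cases h : k ∈ s
  · rw [← Finset.mul_prod_erase s _ h, Function.update_self, if_pos h]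
    congr 1
    refine Finset.prod_congr rfl (fun v hv => ?_)
    rw [Function.update_of_ne (Finset.ne_of_mem_erase hv)]
  · rw [if_neg h, Finset.erase_eq_of_notMem h, one_mul]
    refine Finset.prod_congr rfl (fun v hv => ?_)
    rw [Function.update_of_ne]
    rintro rfl
    exact h hv

theorem U0F : (U 0).F = 0 := by
  show geo 0 = 0
  simp [geo]

theorem U0R : (U 0).R = 1 := by
  show T 0 = 1
  exact T_zero

theorem U1F : (U 1).F = 1 := by
  show geo 1 = 1
  simp [geo]

theorem U1R : (U 1).R = T 1 := rfl

open scoped Classical in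
/-- Packet PA. -/
theorem phiAff : GoalPhiAff := by
  intro E _ dE G
  obtain rfl : dE = (fun a b => Classical.propDecidable (a = b)) := Subsingleton.elim _ _
  refine ⟨?_, ?_⟩
  · intro a k S
    unfold BG.Phi
    rw [Finset.mul_sum, Finset.mul_sum, ← Finset.sum_sub_distrib, Finset.mul_sum,
      ← Finset.sum_add_distrib]
    refine Finset.sum_congr rfl (fun P _ => ?_)
    rw [prod_upd P (fun S => S.F), prod_upd P (fun S => S.F), prod_upd P (fun S => S.F),
      prod_upd _ (fun S => S.R - T 1 * S.F), prod_upd _ (fun S => S.R - T 1 * S.F),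
      prod_upd _ (fun S => S.R - T 1 * S.F)]
    simp only [U0F, U0R, U1F, U1R]
    by_cases h : k ∈ P
    · have h' : ¬ k ∈ Pᶜ := fun h2 => Finset.mem_compl.1 h2 h
      simp only [h, h', if_true, if_false]
      ring
    · have h' : k ∈ Pᶜ := Finset.mem_compl.2 h
      simp only [h, h', if_true, if_false]
      ring
  · intro P
    unfold BG.Phi
    rw [Finset.sum_eq_single P]
    · rw [Finset.prod_congr rfl (g := fun _ => (1 : ℝ[T;T⁻¹])),
        Finset.prod_congr (s₁ := Pᶜ) rfl (g := fun _ => (1 : ℝ[T;T⁻¹]))]
      · rw [Finset.prod_const_one, Finset.prod_const_one, one_mul, one_mul]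
      · intro v hv
        have h : v ∉ P := Finset.mem_compl.1 hv
        simp only [h, if_false, U0F, U0R]
        ring
      · intro v hv
        simp only [hv, if_true, U1F]
    · intro Q _ hQ
      have h : (∃ v ∈ Q, v ∉ P) ∨ ∃ v ∈ P, v ∉ Q := by
        by_contra h
        push Not at h
        exact hQ (Finset.Subset.antisymm h.1 h.2)
      rcases h with ⟨v, hv, hv'⟩ | ⟨v, hv, hv'⟩
      · rw [Finset.prod_eq_zero hv, zero_mul, zero_mul]
        simp only [hv', if_false, U0F]
      · rw [Finset.prod_eq_zero (s := Qᶜ) (Finset.mem_compl.2 hv'), mul_zero, zero_mul]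
        simp only [hv, if_true, U1F, U1R]
        ring
    · intro h
      exact absurd (Finset.mem_univ P) h

end Pool.Agent.Helper86.PG
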