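import Pool.Agent.Helper99.PG.Goals

/-!
Project C2, packet PG-POT: planarity as a property of functions.
-/

set_option autoImplicit false

namespace Pool.Agent.Helper86.PG

open Pool.Agent.Helper36.SC Pool.Agent.Helper99.PG

variable {V : Type}

/-- invariant functions -/
def NI (α : Equiv.Perm V) : Submodule ℝ (V → ℝ) where
  carrier := {f | ∀ e, f (α e) = f e}
  add_mem' := by
    intro f g hf hg e
    rw [Pi.add_apply, Pi.add_apply, hf e, hg e]
  zero_mem' := fun _ => rfl
  smul_mem' := by
    intro c f hf e
    rw [Pi.smul_apply, Pi.smul_apply, hf e]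

/-- functions with `g ∘ β = g ∘ α` -/
def NG (α β : Equiv.Perm V) : Submodule ℝ (V → ℝ) where
  carrier := {f | ∀ e, f (β e) = f (α e)}
  add_mem' := by
    intro f g hf hg e
    rw [Pi.add_apply, Pi.add_apply, hf e, hg e]
  zero_mem' := fun _ => rfl
  smul_mem' := by
    intro c f hf e
    rw [Pi.smul_apply, Pi.smul_apply, hf e]

theorem conn_prop (D : AltDiagram V) (h : D.Connected) (f : V → ℝ)
    (h1 : ∀ e, f (D.underNext e) = f e) (h2 : ∀ e, f (D.overNext e) = f e) (e e' : V) :
    f e = f e' := by
  have h3 := h {v | f v = f e'} ⟨e', rfl⟩ (by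
    intro v hv
    exact ⟨(h2 v).trans hv, (h1 v).trans hv⟩)
  have h4 : e ∈ {v | f v = f e'} := by
    rw [h3]
    trivial
  exact h4

/-- the difference -/
def dif (α : Equiv.Perm V) : (V → ℝ) →ₗ[ℝ] (V → ℝ) where
  toFun g := fun e => g (α e) - g e
  map_add' g g' := by
    funext e
    simp only [Pi.add_apply]
    ring
  map_smul' c g := by
    funext e
    simp only [Pi.smul_apply, smul_eq_mul, RingHom.id_apply]
    ring

/-- the pairing -/
def pai (V : Type) [Fintype V] : (V → ℝ) →ₗ[ℝ] Module.Dual ℝ (V → ℝ) :=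
  LinearMap.mk₂ ℝ (fun i f => ∑ e, f e * i e)
    (by
      intro i i' f
      rw [← Finset.sum_add_distrib]
      refine Finset.sum_congr rfl (fun e _ => ?_)
      rw [Pi.add_apply]
      ring)
    (by
      intro c i f
      rw [Finset.smul_sum]
      refine Finset.sum_congr rfl (fun e _ => ?_)
      rw [Pi.smul_apply, smul_eq_mul, smul_eq_mul]
      ring)
    (by
      intro i f f'
      rw [← Finset.sum_add_distrib]
      refine Finset.sum_congr rfl (fun e _ => ?_)
      rw [Pi.add_apply]
      ring)
    (by
      intro c i f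
      rw [Finset.smul_sum]
      refine Finset.sum_congr rfl (fun e _ => ?_)
      rw [Pi.smul_apply, smul_eq_mul, smul_eq_mul]
      ring)

theorem pai_apply [Fintype V] (i f : V → ℝ) : pai V i f = ∑ e, f e * i e := rfl

theorem pai_inj [Fintype V] : Function.Injective (pai V) := by
  classical
  rw [← LinearMap.ker_eq_bot, LinearMap.ker_eq_bot']
  intro i hi
  funext e
  have h := congrArg (fun φ => φ (Pi.single e (1 : ℝ))) hi
  simp only [pai_apply, LinearMap.zero_apply] at h
  rw [Finset.sum_eq_single e] at h
  · rw [Pi.single_eq_same, one_mul] at h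
    exact h
  · intro b _ hb
    rw [Pi.single_eq_of_ne hb, zero_mul]
  · intro h
    exact absurd (Finset.mem_univ e) h

theorem finrank_le_one_of_const [Nonempty V] (N : Submodule ℝ (V → ℝ))
    (h : ∀ f ∈ N, ∀ e e', f e = f e') (h1 : (fun _ => (1 : ℝ)) ∈ N) :
    Module.finrank ℝ N ≤ 1 := by
  refine finrank_le_one (⟨fun _ => 1, h1⟩ : N) (fun w => ?_)
  obtain ⟨e0⟩ := (inferInstance : Nonempty V)
  refine ⟨w.1 e0, ?_⟩
  apply Subtype.ext
  funext e
  show w.1 e0 * 1 = w.1 e
  rw [mul_one]
  exact h w.1 w.2 e0 e

/-- Packet POT. -/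
theorem pot : GoalPot := by
  intro V _ _ D hpos hconn hpl i hi1 hi2
  rcases isEmpty_or_nonempty V with hV | hV
  · exact ⟨0, fun e => isEmptyElim e, fun e => isEmptyElim e⟩
  set α := D.underNext with hα
  set β := D.overNext with hβ
  -- regions
  have : Finite D.Region := Quotient.finite _
  have : Fintype D.Region := Fintype.ofFinite _
  have r1 : ∀ v, D.region (α v, .left) = D.region (v, .left) := by
    intro v
    have h := AltDiagram.SameSide.underLeft (D := D) v
    rw [if_pos (hpos _), if_pos (hpos _)] at h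
    exact (Quotient.sound (Relation.EqvGen.rel _ _ h)).symm
  have r2 : ∀ v, D.region (β v, .right) = D.region (v, .right) := by
    intro v
    have h := AltDiagram.SameSide.overRight (D := D) v
    rw [if_pos (hpos _), if_pos (hpos _)] at h
    exact (Quotient.sound (Relation.EqvGen.rel _ _ h)).symm
  have r3 : ∀ v, D.region (v, .front) = D.region (β v, .back) := by
    intro v
    have h := AltDiagram.SameSide.overLeft (D := D) v
    rw [if_pos (hpos _), if_pos (hpos _)] at h
    exact Quotient.sound (Relation.EqvGen.rel _ _ h)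
  have r4 : ∀ v, D.region (v, .front) = D.region (α v, .back) := by
    intro v
    have h := AltDiagram.SameSide.underRight (D := D) v
    rw [if_pos (hpos _), if_pos (hpos _)] at h
    exact Quotient.sound (Relation.EqvGen.rel _ _ h)
  -- the first inequality
  have hcard : Module.finrank ℝ (V → ℝ) + 2 ≤ Module.finrank ℝ (NI α) + Module.finrank ℝ (NI β) +
      Module.finrank ℝ (NG α β) := by
    let L1 : (D.Region → ℝ) →ₗ[ℝ] NI α :=
      (LinearMap.funLeft ℝ ℝ (fun v => D.region (v, .left))).codRestrict (NI α) (by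
        intro h v
        show h (D.region (α v, .left)) = h (D.region (v, .left))
        rw [r1])
    let L2 : (D.Region → ℝ) →ₗ[ℝ] NI β :=
      (LinearMap.funLeft ℝ ℝ (fun v => D.region (v, .right))).codRestrict (NI β) (by
        intro h v
        show h (D.region (β v, .right)) = h (D.region (v, .right))
        rw [r2])
    let L3 : (D.Region → ℝ) →ₗ[ℝ] NG α β :=
      (LinearMap.funLeft ℝ ℝ (fun v => D.region (v, .back))).codRestrict (NG α β) (by
        intro h v
        show h (D.region (β v, .back)) = h (D.region (α v, .back))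
        rw [← r3, ← r4])
    have hinj : Function.Injective (L1.prod (L2.prod L3)) := by
      rw [← LinearMap.ker_eq_bot, LinearMap.ker_eq_bot']
      intro h hh
      have h1 : L1 h = 0 := congrArg (fun x => x.1) hh
      have h2 : L2 h = 0 := congrArg (fun x => x.2.1) hh
      have h3 : L3 h = 0 := congrArg (fun x => x.2.2) hh
      have h1' : ∀ v, h (D.region (v, .left)) = 0 := fun v =>
        congrFun (congrArg Subtype.val h1) v
      have h2' : ∀ v, h (D.region (v, .right)) = 0 := fun v =>
        congrFun (congrArg Subtype.val h2) v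
      have h3' : ∀ v, h (D.region (v, .back)) = 0 := fun v =>
        congrFun (congrArg Subtype.val h3) v
      funext R
      obtain ⟨⟨v, c⟩, rfl⟩ := Quotient.exists_rep R
      cases c with
      | left => exact h1' v
      | right => exact h2' v
      | back => exact h3' v
      | front =>
        have h4 : h (D.region (v, .front)) = 0 := by
          rw [r3]
          exact h3' _
        exact h4
    have hle := LinearMap.finrank_le_finrank_of_injective hinj
    rw [Module.finrank_prod, Module.finrank_prod, Module.finrank_fintype_fun_eq_card] at hle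
    rw [Module.finrank_fintype_fun_eq_card]
    have hp : Nat.card D.Region = Nat.card V + 2 := hpl
    rw [Nat.card_eq_fintype_card, Nat.card_eq_fintype_card] at hp
    omega
  -- constants
  have hone : Module.finrank ℝ ((NI α ⊓ NI β : Submodule ℝ (V → ℝ))) ≤ 1 := by
    apply finrank_le_one_of_const
    · intro f hf e e'
      exact conn_prop D hconn f hf.1 hf.2 e e'
    · exact ⟨fun _ => rfl, fun _ => rfl⟩
  have hsup := Submodule.finrank_sup_add_finrank_inf_eq (NI α) (NI β)
  -- the map
  have hker : Module.finrank ℝ (LinearMap.ker ((dif α).domRestrict (NG α β))) ≤ 1 := by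
    have h1 : ∀ e, (fun _ => (1 : ℝ)) (α e) - (fun _ : V => (1 : ℝ)) e = 0 := fun e => sub_self _
    refine finrank_le_one (⟨⟨fun _ => 1, fun _ => rfl⟩, ?_⟩ :
      LinearMap.ker ((dif α).domRestrict (NG α β))) (fun w => ?_)
    · rw [LinearMap.mem_ker]
      funext e
      exact h1 e
    · obtain ⟨e0⟩ := hV
      refine ⟨w.1.1 e0, ?_⟩
      apply Subtype.ext
      apply Subtype.ext
      funext e
      show w.1.1 e0 * 1 = w.1.1 e
      rw [mul_one]
      have h2 : ∀ e, w.1.1 (α e) = w.1.1 e := by
        intro e
        have h3 := congrFun (LinearMap.mem_ker.1 w.2) e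
        exact sub_eq_zero.1 h3
      exact conn_prop D hconn w.1.1 h2 (fun e => (w.1.2 e).trans (h2 e)) e0 e
  have hrk := LinearMap.finrank_range_add_finrank_ker ((dif α).domRestrict (NG α β))
  -- the annihilator
  have hann : Module.finrank ℝ (NI α ⊔ NI β : Submodule ℝ (V → ℝ)) +
      Module.finrank ℝ (NI α ⊔ NI β : Submodule ℝ (V → ℝ)).dualAnnihilator =
      Module.finrank ℝ (V → ℝ) :=
    Subspace.finrank_add_finrank_dualAnnihilator_eq _
  have hH : Module.finrank ℝ ((NI α ⊔ NI β : Submodule ℝ (V → ℝ)).dualAnnihilator.comap (pai V)) ≤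
      Module.finrank ℝ (NI α ⊔ NI β : Submodule ℝ (V → ℝ)).dualAnnihilator := by
    rw [(Submodule.equivMapOfInjective (pai V) pai_inj _).finrank_eq]
    exact Submodule.finrank_mono (Submodule.map_comap_le _ _)
  have hmem : ∀ j : V → ℝ, (∀ f ∈ NI α, ∑ e, f e * j e = 0) → (∀ f ∈ NI β, ∑ e, f e * j e = 0) →
      j ∈ (NI α ⊔ NI β : Submodule ℝ (V → ℝ)).dualAnnihilator.comap (pai V) := by
    intro j h1 h2
    rw [Submodule.mem_comap, Submodule.mem_dualAnnihilator]
    have h3 : (NI α ⊔ NI β : Submodule ℝ (V → ℝ)) ≤ LinearMap.ker (pai V j) :=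
      sup_le (fun f hf => LinearMap.mem_ker.2 (h1 f hf)) (fun f hf => LinearMap.mem_ker.2 (h2 f hf))
    exact fun w hw => LinearMap.mem_ker.1 (h3 hw)
  have hrange : LinearMap.range ((dif α).domRestrict (NG α β)) ≤
      (NI α ⊔ NI β : Submodule ℝ (V → ℝ)).dualAnnihilator.comap (pai V) := by
    rintro _ ⟨⟨g, hg⟩, rfl⟩
    apply hmem
    · intro f hf
      show ∑ e, f e * (g (α e) - g e) = 0
      have h1 : ∑ e, f (α e) * g (α e) = ∑ e, f e * g e :=
        Equiv.sum_comp α (fun e => f e * g e)
      have h2 : ∑ e, f e * (g (α e) - g e) = ∑ e, f (α e) * g (α e) - ∑ e, f e * g e := by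
        rw [← Finset.sum_sub_distrib]
        refine Finset.sum_congr rfl (fun e _ => ?_)
        rw [hf e]
        ring
      rw [h2, h1, sub_self]
    · intro f hf
      show ∑ e, f e * (g (α e) - g e) = 0
      have h1 : ∑ e, f (β e) * g (β e) = ∑ e, f e * g e :=
        Equiv.sum_comp β (fun e => f e * g e)
      have h2 : ∑ e, f e * (g (α e) - g e) = ∑ e, f (β e) * g (β e) - ∑ e, f e * g e := by
        rw [← Finset.sum_sub_distrib]
        refine Finset.sum_congr rfl (fun e _ => ?_)
        rw [hf e, hg e]
        ring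
      rw [h2, h1, sub_self]
  have heq := Submodule.eq_of_le_of_finrank_le hrange (by omega)
  have hi : i ∈ LinearMap.range ((dif α).domRestrict (NG α β)) := by
    rw [heq]
    exact hmem i hi1 hi2
  obtain ⟨⟨g, hg⟩, hgi⟩ := hi
  exact ⟨g, fun e => (congrFun hgi e).symm, hg⟩

end Pool.Agent.Helper86.PG
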